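import Pool.Agent.Lib.MP_188a32_co.Final

/-!
# Knots in linear spatial embeddings of complete graphs: a polynomial bound
-/

namespace Pool.Agent.Results.MP_188a32_co.PolynomialBound

open Pool.Agent.LinKnot

/-- There are constants `C` and `d` such that, for all `k ≥ 3` and `n ≥ C k ^ d`, every linear
spatial embedding of the complete graph `K_n` contains every knot with crossing number `k` up to
isotopy. -/
theorem result : ∃ C d : ℕ, ∀ k : ℕ, 3 ≤ k → ∀ K : List R3, IsKnot K → CrossingNumber K k →
    ∀ n : ℕ, C * k ^ d ≤ n → ∀ p : Fin n → R3, IsLinearEmbedding p → Contains p K :=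
  polynomial_bound

end Pool.Agent.Results.MP_188a32_co.PolynomialBound
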